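import Pool.Agent.H68.B.Mem
import Pool.Agent.H68.A.Mat

/-!
# The number of the classes for a twist by split and silent primes
-/

set_option autoImplicit false

namespace Pool.Agent.H68.A

open Pool.Agent.R413.TI

/-- the classes for the twist by `D` which divide `b` -/
def KK (a b D : ℤ) : Set ℤ := {c | Squarefree c ∧ c ∣ b ∧
  Bd (b * (a ^ 2 - 4 * b)) (a * D) (b * D ^ 2) c}

theorem KK_eq {a b D D' : ℤ} (hb : b ≠ 0) (hD' : D' ≠ 0)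
    (hT : Tr (b * (a ^ 2 - 4 * b)) (D * D')) : KK a b D = KK a b D' := by
  ext c
  constructor
  · rintro ⟨h1, h2, h3⟩
    exact ⟨h1, h2, (Bd_tw2 hb h1.ne_zero hD' hT).1 h3⟩
  · rintro ⟨h1, h2, h3⟩
    exact ⟨h1, h2, (Bd_tw2 hb h1.ne_zero hD' hT).2 h3⟩

section
variable {a b : ℤ} {P Q : Finset ℕ} {f : ℕ → ZMod 2} (h : Dt a b P Q f)
include h

open Classical in
theorem Dt.card : (CL (a * ∏ r ∈ P ∪ Q, (r : ℤ)) (b * (∏ r ∈ P ∪ Q, (r : ℤ)) ^ 2)).ncard =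
    (KK a b (∏ r ∈ P ∪ Q, (r : ℤ))).ncard * (P.powerset.filter (Gd P Q f)).card := by
  have e : CL (a * ∏ r ∈ P ∪ Q, (r : ℤ)) (b * (∏ r ∈ P ∪ Q, (r : ℤ)) ^ 2) =
      (fun x : ℤ × Finset ℕ => x.1 * ∏ r ∈ x.2, (r : ℤ)) ''
        ((KK a b (∏ r ∈ P ∪ Q, (r : ℤ))) ×ˢ
          ((P.powerset.filter (Gd P Q f) : Finset (Finset ℕ)) : Set (Finset ℕ))) := by
    ext z
    rw [h.mem_iff]
    simp only [Set.mem_image, Set.mem_prod, Finset.mem_coe, Finset.mem_filter,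
      Finset.mem_powerset, Prod.exists]
    constructor
    · rintro ⟨c, hc, V, hV, hG, hz⟩
      exact ⟨c, V, ⟨hc, hV, hG⟩, hz.symm⟩
    · rintro ⟨c, V, ⟨hc, hV, hG⟩, hz⟩
      exact ⟨c, hc, V, hV, hG, hz.symm⟩
  rw [e, Set.InjOn.ncard_image, Set.ncard_prod, Set.ncard_coe_finset]
  rintro ⟨c, V⟩ ⟨h1, h2⟩ ⟨c', V'⟩ ⟨h1', h2'⟩ heq
  simp only [Finset.mem_coe, Finset.mem_filter, Finset.mem_powerset] at h1 h2 h1' h2' heq
  have key : ∀ {c c' : ℤ} {V V' : Finset ℕ}, c' ∣ b → V ⊆ P → V' ⊆ P →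
      c * ∏ r ∈ V, (r : ℤ) = c' * ∏ r ∈ V', (r : ℤ) → V ⊆ V' := by
    intro c c' V V' hc' hV hV' heq r hr
    have hpr := (h.hP r (hV hr)).1
    have hpi : Prime (r : ℤ) := Nat.prime_iff_prime_int.1 hpr
    have h3 : (r : ℤ) ∣ c' * ∏ r ∈ V', (r : ℤ) := by
      rw [← heq]
      exact (Finset.dvd_prod_of_mem _ hr).mul_left _
    rcases hpi.dvd_or_dvd h3 with h4 | h4
    · exact absurd ((h4.trans hc').mul_right _) (h.hP r (hV hr)).2.2.1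
    · rw [Prime.dvd_finsetProd_iff hpi] at h4
      obtain ⟨s, hs, hrs⟩ := h4
      rw [Int.natCast_dvd_natCast] at hrs
      rwa [(Nat.prime_dvd_prime_iff_eq hpr (h.hP s (hV' hs)).1).1 hrs]
  have hVV : V = V' := Finset.Subset.antisymm (key h1'.2.1 h2.1 h2'.1 heq)
    (key h1.2.1 h2'.1 h2.1 heq.symm)
  subst hVV
  have h0 : ∏ r ∈ V, (r : ℤ) ≠ 0 := (sqf_prod V (fun r hr => (h.hP r (h2.1 hr)).1)).ne_zero
  rw [mul_right_cancel₀ h0 heq]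

end

/-- the classes of the twists by silent primes -/
theorem CL_silent {a b : ℤ} {R : Finset ℕ} (hb : b ≠ 0) (hc : a ^ 2 - 4 * b ≠ 0)
    (hR : ∀ q ∈ R, Sil a b q) :
    CL (a * ∏ r ∈ R, (r : ℤ)) (b * (∏ r ∈ R, (r : ℤ)) ^ 2) = KK a b (∏ r ∈ R, (r : ℤ)) := by
  have h : Dt a b ∅ R (fun _ => 0) := ⟨hb, hc, by simp, hR, by simp⟩
  ext z
  have h1 := h.mem_iff (z := z)
  rw [Finset.empty_union] at h1
  rw [h1]
  constructor
  · rintro ⟨c, hc, V, hV, hG, hz⟩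
    rw [Finset.subset_empty.1 hV, Finset.prod_empty, mul_one] at hz
    rw [hz]
    exact hc
  · intro h2
    exact ⟨z, h2, ∅, Finset.Subset.refl _, by intro p hp; simp at hp, by simp⟩

theorem dt {a b : ℤ} {P Q : Finset ℕ} (hb : b ≠ 0) (hc : a ^ 2 - 4 * b ≠ 0)
    (hP : ∀ p ∈ P, Spl a b p) (hQ : ∀ q ∈ Q, Sil a b q) :
    Dt a b P Q (rt a b) ∧ Dt (-2 * a) (a ^ 2 - 4 * b) P Q (rt a b) := by
  constructor
  · refine ⟨hb, hc, hP, hQ, ?_⟩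
    intro p hp
    have := Fact.mk (hP p hp).1
    obtain ⟨h1, h2, h3, h4⟩ := (hP p hp).sqb
    obtain ⟨e, he⟩ := exists_root (a := a) (b := b) (hP p hp).2.1 h2
    exact ⟨e, he, rt_iff h1 h3 he⟩
  · refine ⟨hc, ?_, fun p hp => (hP p hp).dual, fun q hq => (hQ q hq).dual, ?_⟩
    · have : (-2 * a) ^ 2 - 4 * (a ^ 2 - 4 * b) = 16 * b := by ring
      rw [this]
      exact mul_ne_zero (by norm_num) hb
    · intro p hp
      have := Fact.mk (hP p hp).1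
      obtain ⟨h1, h2, h3, h4⟩ := (hP p hp).sqb
      obtain ⟨k1, k2, k3, k4⟩ := (hP p hp).dual.sqb
      obtain ⟨e, he⟩ := exists_root (a := a) (b := b) (hP p hp).2.1 h2
      obtain ⟨e', he'⟩ := exists_root (a := -2 * a) (b := a ^ 2 - 4 * b) (hP p hp).2.1 k2
      refine ⟨e', he', ?_⟩
      rw [rt_iff h1 h3 he]
      refine sym p (a : ZMod p) (b : ZMod p) e e' (hP p hp).2.1 h3 ?_ (hP p hp).2.2.2.1 h1 he ?_
      · push_cast at h4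
        exact h4
      · push_cast at he'
        linear_combination he'

/-- **the numbers of the classes**: `R` is a set of silent primes whose product is in the same
class as the product of the primes in `Q` -/
theorem main2 {a b : ℤ} {P Q R : Finset ℕ} (hb : b ≠ 0) (hc : a ^ 2 - 4 * b ≠ 0)
    (hP : ∀ p ∈ P, Spl a b p) (hQ : ∀ q ∈ Q, Sil a b q) (hR : ∀ q ∈ R, Sil a b q)
    (hT : Tr (b * (a ^ 2 - 4 * b)) ((∏ q ∈ Q, (q : ℤ)) * ∏ q ∈ R, (q : ℤ))) :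
    (CL (a * ∏ r ∈ P ∪ Q, (r : ℤ)) (b * (∏ r ∈ P ∪ Q, (r : ℤ)) ^ 2)).ncard =
      (CL (a * ∏ r ∈ R, (r : ℤ)) (b * (∏ r ∈ R, (r : ℤ)) ^ 2)).ncard *
        2 ^ (P.card - (mat a b P Q).rank) ∧
    (CL (-2 * (a * ∏ r ∈ P ∪ Q, (r : ℤ))) ((a * ∏ r ∈ P ∪ Q, (r : ℤ)) ^ 2 -
        4 * (b * (∏ r ∈ P ∪ Q, (r : ℤ)) ^ 2))).ncard =
      (CL (-2 * (a * ∏ r ∈ R, (r : ℤ))) ((a * ∏ r ∈ R, (r : ℤ)) ^ 2 -
        4 * (b * (∏ r ∈ R, (r : ℤ)) ^ 2))).ncard * 2 ^ (P.card - (mat a b P Q).rank) := by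
  obtain ⟨h1, h2⟩ := dt hb hc hP hQ
  have hR0 : ∏ r ∈ R, (r : ℤ) ≠ 0 := (sqf_prod R (fun r hr => (hR r hr).1)).ne_zero
  have hTT : Tr (b * (a ^ 2 - 4 * b)) ((∏ r ∈ P ∪ Q, (r : ℤ)) * ∏ q ∈ R, (q : ℤ)) := by
    rw [Finset.prod_union h1.disj, mul_assoc]
    exact Tr_mul (h1.TrV subset_rfl) hT
  constructor
  · rw [h1.card, card_Gd, CL_silent hb hc hR, KK_eq hb hR0 hTT]
  · have e1 : ∀ D : ℤ, -2 * (a * D) = -2 * a * D := fun D => by ring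
    have e2 : ∀ D : ℤ, (a * D) ^ 2 - 4 * (b * D ^ 2) = (a ^ 2 - 4 * b) * D ^ 2 := fun D => by ring
    rw [e1, e2, e1, e2, h2.card, card_Gd, CL_silent h2.hb h2.hc (fun q hq => (hR q hq).dual),
      KK_eq h2.hb hR0 hTT.dual]

end Pool.Agent.H68.A
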