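import Pool.Agent.H68.A.Mem

/-!
# The classes for a twist by split and silent primes: the general description
-/

set_option autoImplicit false

namespace Pool.Agent.H68.A

open Pool.Agent.R413.TI

/-- twists in the same class at the bad places -/
theorem Bd_tw2 {n a b D D' z : ℤ} (hb : b ≠ 0) (hz : z ≠ 0) (hD' : D' ≠ 0) (hT : Tr n (D * D')) :
    Bd n (a * D) (b * D ^ 2) z ↔ Bd n (a * D') (b * D' ^ 2) z := by
  have h1 : Bd n (a * D' * (D * D')) (b * D' ^ 2 * (D * D') ^ 2) z ↔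
      Bd n (a * D') (b * D' ^ 2) z := Bd_tw (mul_ne_zero hb (pow_ne_zero 2 hD')) hz hT
  have hD : D ≠ 0 := by
    rintro rfl
    have := hT.1
    simp at this
  have hbD : b * D ^ 2 ≠ 0 := mul_ne_zero hb (pow_ne_zero 2 hD)
  rw [← h1]
  have e1 : a * D' * (D * D') = a * D * D' ^ 2 := by ring
  have e2 : b * D' ^ 2 * (D * D') ^ 2 = b * D ^ 2 * D' ^ 4 := by ring
  rw [e1, e2]
  unfold Bd
  push_cast
  refine and_congr ?_ (and_congr ?_ ?_)
  · exact (W_twist (K := ℝ) (by exact_mod_cast hbD) (by exact_mod_cast hz)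
      (by exact_mod_cast hD')).symm
  · exact (W_twist (K := ℚ_[2]) (by exact_mod_cast hbD) (by exact_mod_cast hz)
      (by exact_mod_cast hD')).symm
  · have key : ∀ (p : ℕ) [Fact p.Prime],
        (W ℚ_[p] ((a : ℚ_[p]) * D * D' ^ 2) (b * D ^ 2 * D' ^ 4) z ↔
          W ℚ_[p] ((a : ℚ_[p]) * D) (b * D ^ 2) z) := fun p _ =>
      W_twist (K := ℚ_[p]) (by exact_mod_cast hbD) (by exact_mod_cast hz)
        (by exact_mod_cast hD')
    constructor
    · intro h p _ hp hpn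
      exact (key p).2 (h p hp hpn)
    · intro h p _ hp hpn
      exact (key p).1 (h p hp hpn)

/-- the data of a twist -/
structure Dt (a b : ℤ) (P Q : Finset ℕ) (f : ℕ → ZMod 2) : Prop where
  hb : b ≠ 0
  hc : a ^ 2 - 4 * b ≠ 0
  hP : ∀ p ∈ P, Spl a b p
  hQ : ∀ q ∈ Q, Sil a b q
  hf : ∀ p ∈ P, ∃ e : ZMod p, e ^ 2 + (a : ZMod p) * e + (b : ZMod p) = 0 ∧
    (f p = 0 ↔ IsSquare e)

section
variable {a b : ℤ} {P Q : Finset ℕ} {f : ℕ → ZMod 2} (h : Dt a b P Q f)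
include h

theorem Dt.disj : Disjoint P Q := by
  rw [Finset.disjoint_left]
  intro p hp hq
  obtain ⟨h1, h2, h3, h4, h5, h6⟩ := h.hP p hp
  apply (h.hQ p hq).2.2.1
  have := Fact.mk h1
  exact sq_of_primes_int b h4 (fun l hl hlb => h6 l hl (hlb.mul_right _))

theorem Dt.prime {p : ℕ} (hp : p ∈ P ∪ Q) : p.Prime := by
  rcases Finset.mem_union.1 hp with hp | hp
  · exact (h.hP p hp).1
  · exact (h.hQ p hp).1

theorem Dt.TrV {V : Finset ℕ} (hV : V ⊆ P) :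
    Tr (b * (a ^ 2 - 4 * b)) (∏ r ∈ V, (r : ℤ)) :=
  Tr_prod V (fun r hr => Spl_Tr (h.hP r (hV hr)))


theorem Dt.not_dvd_b {r : ℕ} (hr : r ∈ P ∪ Q) : ¬ (r : ℤ) ∣ b * (a ^ 2 - 4 * b) := by
  rcases Finset.mem_union.1 hr with hr | hr
  · exact (h.hP r hr).2.2.1
  · obtain ⟨h1, h2, h3, h4⟩ := h.hQ r hr
    have := Fact.mk h1
    intro h5
    have hpi : Prime (r : ℤ) := Nat.prime_iff_prime_int.1 h1
    exact (hpi.dvd_or_dvd h5).elim (not_dvd_of_not_sq h3) (not_dvd_of_not_sq h4)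

theorem Dt.ne_two {r : ℕ} (hr : r ∈ P ∪ Q) : r ≠ 2 := by
  rcases Finset.mem_union.1 hr with hr | hr
  · exact (h.hP r hr).2.1
  · exact (h.hQ r hr).2.1

/-- the local condition at a split prime -/
theorem Dt.loc {p : ℕ} [Fact p.Prime] (hp : p ∈ P) {V : Finset ℕ} (hV : V ⊆ P) {c z : ℤ}
    (hc : c ∣ b) (hz : z = c * ∏ r ∈ V, (r : ℤ)) (hsq : Squarefree z) :
    W ℚ_[p] ((a * ∏ r ∈ P ∪ Q, (r : ℤ) : ℤ) : ℚ_[p]) ((b * (∏ r ∈ P ∪ Q, (r : ℤ)) ^ 2 : ℤ) : ℚ_[p]) z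
      ↔ ∑ r ∈ V.erase p, nr p (r : ℤ) + (if p ∈ V then dg P Q f p else 0) = 0 := by
  have hpp : p.Prime := Fact.out
  have hpi : Prime (p : ℤ) := Nat.prime_iff_prime_int.1 hpp
  have hpU : p ∈ P ∪ Q := Finset.mem_union_left _ hp
  obtain ⟨-, h2, h3, h4, h5, h6⟩ := h.hP p hp
  have hpb : ¬ (p : ℤ) ∣ b := fun h7 => h3 (h7.mul_right _)
  have hpc' : ¬ (p : ℤ) ∣ a ^ 2 - 4 * b := fun h7 => h3 (h7.mul_left _)
  have hbs : IsSquare ((b : ℤ) : ZMod p) :=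
    sq_of_primes_int b h4 (fun l hl hlb => h6 l hl (hlb.mul_right _))
  obtain ⟨e, he, hfe⟩ := h.hf p hp
  have hD : ∏ r ∈ P ∪ Q, (r : ℤ) = p * ∏ r ∈ (P ∪ Q).erase p, (r : ℤ) :=
    (Finset.mul_prod_erase (P ∪ Q) (fun r : ℕ => (r : ℤ)) hpU).symm
  obtain ⟨k1, k2⟩ := nr_prod (p := p) ((P ∪ Q).erase p)
    (fun r hr => ⟨h.prime (Finset.mem_of_mem_erase hr), Finset.ne_of_mem_erase hr⟩)
  obtain ⟨k3, k4⟩ := nr_prod (p := p) (V.erase p)
    (fun r hr => ⟨h.prime (Finset.mem_union_left _ (hV (Finset.mem_of_mem_erase hr))),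
      Finset.ne_of_mem_erase hr⟩)
  have hpc : ¬ (p : ℤ) ∣ c := fun h7 => hpb (h7.trans hc)
  have hcs : nr p c = 0 := nr_eq_zero.2
    (sq_of_primes_int c h4 (fun l hl hlc => h6 l hl ((hlc.trans hc).mul_right _)))
  have hzd : z ∣ b * (∏ r ∈ P ∪ Q, (r : ℤ)) ^ 2 := by
    rw [hz, pow_two]
    refine mul_dvd_mul hc (Dvd.dvd.mul_right ?_ _)
    exact Finset.prod_dvd_prod_of_subset _ _ _ (hV.trans Finset.subset_union_left)
  rw [hD] at hzd
  obtain ⟨m1, m2⟩ := W_split h2 hpb hpc' hbs he k1 hsq hzd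
  rw [hD]
  by_cases hpV : p ∈ V
  · rw [if_pos hpV]
    have hz2 : z = p * (c * ∏ r ∈ V.erase p, (r : ℤ)) := by
      rw [hz, ← Finset.mul_prod_erase V (fun r : ℕ => (r : ℤ)) hpV]
      ring
    rw [m2 _ hz2]
    -- lift the root
    obtain ⟨m, hm⟩ : ∃ m : ℤ, (m : ZMod p) = e := ⟨(e.val : ℤ), by simp⟩
    have hpm : ¬ (p : ℤ) ∣ m := by
      intro h7
      rw [← hm, (ZMod.intCast_zmod_eq_zero_iff_dvd m p).2 h7] at he
      apply hpb
      rw [← ZMod.intCast_zmod_eq_zero_iff_dvd]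
      simpa using he
    have hfm : nr p m = f p := zmod2_eq (by rw [nr_eq_zero, hm, hfe])
    have e1 : (((c * ∏ r ∈ V.erase p, (r : ℤ) : ℤ)) : ZMod p) *
        ((∏ r ∈ (P ∪ Q).erase p, (r : ℤ) : ℤ) : ZMod p) * e =
        (((c * ∏ r ∈ V.erase p, (r : ℤ)) * (∏ r ∈ (P ∪ Q).erase p, (r : ℤ)) * m : ℤ) : ZMod p) := by
      rw [← hm]
      push_cast
      ring
    have n1 : ¬ (p : ℤ) ∣ c * ∏ r ∈ V.erase p, (r : ℤ) :=
      fun h7 => (hpi.dvd_or_dvd h7).elim hpc k3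
    have n2 : ¬ (p : ℤ) ∣ (c * ∏ r ∈ V.erase p, (r : ℤ)) * ∏ r ∈ (P ∪ Q).erase p, (r : ℤ) :=
      fun h7 => (hpi.dvd_or_dvd h7).elim n1 k1
    rw [e1, ← nr_eq_zero, nr_mul n2 hpm, nr_mul n1 k1, nr_mul hpc k3, hcs, hfm, k2, k4]
    unfold dg
    rw [zero_add, add_assoc, add_comm (∑ s ∈ (P ∪ Q).erase p, nr p (s : ℤ)) (f p)]
  · rw [if_neg hpV, add_zero]
    have hVe : V.erase p = V := Finset.erase_eq_of_notMem hpV
    rw [hVe] at k3 k4 ⊢
    rw [m1 (by rw [hz]; exact fun h7 => (hpi.dvd_or_dvd h7).elim hpc k3), ← nr_eq_zero, hz,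
      nr_mul hpc k3, hcs, k4, zero_add]

/-- the classes of the twist -/
theorem Dt.mem_iff {z : ℤ} :
    z ∈ CL (a * ∏ r ∈ P ∪ Q, (r : ℤ)) (b * (∏ r ∈ P ∪ Q, (r : ℤ)) ^ 2) ↔
      ∃ c, (Squarefree c ∧ c ∣ b ∧ Bd (b * (a ^ 2 - 4 * b)) (a * ∏ r ∈ P ∪ Q, (r : ℤ))
        (b * (∏ r ∈ P ∪ Q, (r : ℤ)) ^ 2) c) ∧
        ∃ V ⊆ P, Gd P Q f V ∧ z = c * ∏ r ∈ V, (r : ℤ) := by
  classical
  have hb := h.hb
  have hc := h.hc
  obtain ⟨D, hD⟩ : ∃ D : ℤ, D = ∏ r ∈ P ∪ Q, (r : ℤ) := ⟨_, rfl⟩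
  have hD0 : D ≠ 0 := by
    rw [hD]
    exact (sqf_prod (P ∪ Q) (fun r hr => h.prime hr)).ne_zero
  have hbD : b * D ^ 2 ≠ 0 := mul_ne_zero hb (pow_ne_zero 2 hD0)
  rw [← hD]
  constructor
  · intro hz
    obtain ⟨hsq, hEw⟩ := (CL_iff hbD).1 hz
    have hzd : z ∣ b * D ^ 2 := hz.2.1
    have hz0 := hsq.ne_zero
    obtain ⟨V, hVd⟩ : ∃ V : Finset ℕ, V = P.filter (fun p : ℕ => (p : ℤ) ∣ z) := ⟨_, rfl⟩
    have hV : V ⊆ P := hVd ▸ Finset.filter_subset _ _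
    have hVp : ∀ r ∈ V, r.Prime := fun r hr => (h.hP r (hV hr)).1
    obtain ⟨c, hcz⟩ := prod_dvd_of hVp (fun r hr => by
      rw [hVd] at hr
      exact (Finset.mem_filter.1 hr).2)
    have hz2 : z = c * ∏ r ∈ V, (r : ℤ) := by rw [hcz, mul_comm]
    have hcsq : Squarefree c := (squarefree_mul_iff.1 (hz2 ▸ hsq)).2.1
    have hc0 := hcsq.ne_zero
    have hcb : c ∣ b := by
      refine dvd_of_primes hcsq (fun l hl hlc => ?_)
      have hpi : Prime (l : ℤ) := Nat.prime_iff_prime_int.1 hl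
      have := Fact.mk hl
      have hlz : (l : ℤ) ∣ z := hz2 ▸ hlc.mul_right _
      rcases hpi.dvd_or_dvd (hlz.trans hzd) with h1 | h1
      · exact h1
      exfalso
      have h2 := hpi.dvd_of_dvd_pow h1
      rw [hD, Prime.dvd_finsetProd_iff hpi] at h2
      obtain ⟨r, hr, hlr⟩ := h2
      rw [Int.natCast_dvd_natCast] at hlr
      have hlr' : l = r := (Nat.prime_dvd_prime_iff_eq hl (h.prime hr)).1 hlr
      subst hlr'
      rcases Finset.mem_union.1 hr with hr' | hr'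
      · have hlV : l ∈ V := by
          rw [hVd]
          exact Finset.mem_filter.2 ⟨hr', hlz⟩
        have h3 : (l : ℤ) * l ∣ z := by
          rw [hz2]
          exact mul_dvd_mul hlc (Finset.dvd_prod_of_mem _ hlV)
        exact hpi.not_isUnit (hsq _ h3)
      · obtain ⟨q1, q2, q3, q4⟩ := h.hQ l hr'
        have h3 := hEw.2 l
        have h4 : D = l * ∏ r ∈ (P ∪ Q).erase l, (r : ℤ) := by
          rw [hD]
          exact (Finset.mul_prod_erase (P ∪ Q) (fun r : ℕ => (r : ℤ)) hr).symm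
        rw [h4] at h3
        exact (W_silent q2 q3 q4 (nr_prod (p := l) ((P ∪ Q).erase l)
          (fun r hr => ⟨h.prime (Finset.mem_of_mem_erase hr), Finset.ne_of_mem_erase hr⟩)).1
          hsq).1 h3 hlz
    refine ⟨c, ⟨hcsq, hcb, ?_⟩, V, hV, ?_, hz2⟩
    · have h1 : Bd (b * (a ^ 2 - 4 * b)) (a * D) (b * D ^ 2) z :=
        ⟨hEw.1, hEw.2 2, fun p _ _ _ => hEw.2 p⟩
      rw [hz2, Bd_mul hbD hc0 (h.TrV hV)] at h1
      exact h1
    · intro p hp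
      have := Fact.mk (h.hP p hp).1
      have h1 := hEw.2 p
      rw [hD] at h1
      exact (h.loc hp hV hcb hz2 hsq).1 h1
  · rintro ⟨c, ⟨hcsq, hcb, hEc⟩, V, hV, hG, hz⟩
    have hc0 := hcsq.ne_zero
    have hVp : ∀ r ∈ V, r.Prime := fun r hr => (h.hP r (hV hr)).1
    have hsq : Squarefree z := by
      rw [hz, squarefree_mul_iff]
      refine ⟨?_, hcsq, sqf_prod V hVp⟩
      refine (IsCoprime.prod_right (fun r hr => ?_)).isRelPrime
      refine (coprime_prime (hVp r hr) (fun h1 => ?_)).symm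
      exact (h.hP r (hV hr)).2.2.1 ((h1.trans hcb).mul_right _)
    have hz0 := hsq.ne_zero
    have hEB : Bd (b * (a ^ 2 - 4 * b)) (a * D) (b * D ^ 2) z := by
      rw [hz, Bd_mul hbD hc0 (h.TrV hV)]
      exact hEc
    refine (CL_iff hbD).2 ⟨hsq, hEB.1, fun p hp => ?_⟩
    have hpi : Prime (p : ℤ) := Nat.prime_iff_prime_int.1 hp.out
    by_cases hp2 : p = 2
    · subst hp2
      exact hEB.2.1
    by_cases hpn : (p : ℤ) ∣ b * (a ^ 2 - 4 * b)
    · exact hEB.2.2 p hp2 hpn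
    by_cases hpU : p ∈ P ∪ Q
    · rcases Finset.mem_union.1 hpU with hp' | hp'
      · rw [hD]
        exact (h.loc hp' hV hcb hz hsq).2 (hG p hp')
      · obtain ⟨q1, q2, q3, q4⟩ := h.hQ p hp'
        have h4 : D = p * ∏ r ∈ (P ∪ Q).erase p, (r : ℤ) := by
          rw [hD]
          exact (Finset.mul_prod_erase (P ∪ Q) (fun r : ℕ => (r : ℤ)) hpU).symm
        rw [h4]
        refine (W_silent q2 q3 q4 (nr_prod (p := p) ((P ∪ Q).erase p)
          (fun r hr => ⟨h.prime (Finset.mem_of_mem_erase hr), Finset.ne_of_mem_erase hr⟩)).1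
          hsq).2 ?_
        rw [hz]
        intro h5
        rcases hpi.dvd_or_dvd h5 with h6 | h6
        · exact hpn ((h6.trans hcb).mul_right _)
        · exact (nr_prod (p := p) V (fun r hr => ⟨hVp r hr, fun e =>
            (Finset.disjoint_left.1 h.disj (hV hr)) (e ▸ hp')⟩)).1 h6
    · have hpD : ¬ (p : ℤ) ∣ D := by
        rw [hD]
        exact (nr_prod (p := p) (P ∪ Q) (fun r hr => ⟨h.prime hr, fun e => hpU (e ▸ hr)⟩)).1
      refine W_good hp2 ?_ ?_ ?_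
      · exact fun h1 => (hpi.dvd_or_dvd h1).elim (fun h2 => hpn (h2.mul_right _))
          (fun h2 => hpD (hpi.dvd_of_dvd_pow h2))
      · have e : (a * D) ^ 2 - 4 * (b * D ^ 2) = (a ^ 2 - 4 * b) * D ^ 2 := by ring
        rw [e]
        exact fun h1 => (hpi.dvd_or_dvd h1).elim (fun h2 => hpn (h2.mul_left _))
          (fun h2 => hpD (hpi.dvd_of_dvd_pow h2))
      · rw [hz]
        intro h5
        rcases hpi.dvd_or_dvd h5 with h6 | h6
        · exact hpn ((h6.trans hcb).mul_right _)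
        · exact (nr_prod (p := p) V (fun r hr => ⟨hVp r hr, fun e =>
            hpU (e ▸ Finset.mem_union_left _ (hV hr))⟩)).1 h6

end

end Pool.Agent.H68.A
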